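import Mathlib

/-!
The mirror Markov tree.  Polynomials in `q` are elements of `ℤ[X]`, Laurent polynomials in `q`
are elements of `LaurentPolynomial ℤ`, where `T n` is `q ^ n` and `invert` is `q ↦ q⁻¹`.
The mirror image `q ^ (deg x) * x(q⁻¹)` of a polynomial `x` is Mathlib's `Polynomial.reverse x`.
-/

open Polynomial LaurentPolynomial

namespace Pool.Agent.P.MP_6870a6_co

/-- The symmetrization `x(q) * x(q⁻¹)` of a polynomial `x`, a Laurent polynomial. -/
noncomputable def sym (x : ℤ[X]) : LaurentPolynomial ℤ :=
  toLaurent x * invert (toLaurent x)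

/-- `w` is the exact quotient `q ^ (deg z) * (q ^ s * Y + Z) / (mirror image of x)`,
where `Y`, `Z` are the symmetrizations of `y`, `z`. -/
def IsJump (x y z : ℤ[X]) (s : ℤ) (w : ℤ[X]) : Prop :=
  toLaurent w * toLaurent x.reverse = T (z.natDegree : ℤ) * (T s * sym y + sym z)

/-- The polynomial `q ^ (deg z) * (q ^ s * Y + Z) / (mirror image of x)`: a polynomial `w` with
`IsJump x y z s w`, when there is one. -/
noncomputable def jump (x y z : ℤ[X]) (s : ℤ) : ℤ[X] :=
  Classical.epsilon (IsJump x y z s)

/-- A triple `(a, b, c)` together with the sign `sgn` of the edge entering it. -/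
structure Node where
  a : ℤ[X]
  b : ℤ[X]
  c : ℤ[X]
  sgn : ℤ

/-- The left child: left mutation with `s = sgn`; its entering edge has sign `s`. -/
noncomputable def Node.left (t : Node) : Node :=
  ⟨t.a, t.c, jump t.b t.a t.c t.sgn, t.sgn⟩

/-- The right child: right mutation with `s = -sgn`; its entering edge has sign `s`. -/
noncomputable def Node.right (t : Node) : Node :=
  ⟨t.b, t.c, jump t.a t.b t.c (-t.sgn), -t.sgn⟩

/-- The vertex `t₀ = (1, 1 + q, 1 + 2q + 2q²)`, entering sign `+1`. -/
noncomputable def root : Node :=
  ⟨1, 1 + X, 1 + 2 * X + 2 * X ^ 2, 1⟩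

/-- The vertex reached from `t₀` along the path `w` (read from left to right; `false` means
go to the left child, `true` means go to the right child). -/
noncomputable def node (w : List Bool) : Node :=
  w.foldl (fun t d => if d then t.right else t.left) root

/-- The vertices of the mirror Markov tree: the two vertices above `t₀`, and one vertex for each
finite path starting at `t₀`. -/
inductive Vertex where
  | top0 : Vertex
  | top1 : Vertex
  | below (w : List Bool) : Vertex

/-- The triple `(a, b, c)` sitting at a vertex. -/
noncomputable def triple : Vertex → ℤ[X] × ℤ[X] × ℤ[X]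
  | .top0 => (1, 1, 1)
  | .top1 => (1, 1, 1 + X)
  | .below w => ((node w).a, (node w).b, (node w).c)

end Pool.Agent.P.MP_6870a6_co
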