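import Pool.Agent.P.MP_6870a6_co.Defs

open Polynomial LaurentPolynomial

namespace Pool.Agent.P.MP_6870a6_co

lemma invert_invert (f : LaurentPolynomial ℤ) : invert (invert f) = f := involutive_invert f

lemma invert_sym (x : ℤ[X]) : invert (sym x) = sym x := by
  simp only [sym, map_mul, invert_invert]
  ring

lemma T_mul_T_neg (n : ℤ) : (T n : LaurentPolynomial ℤ) * T (-n) = 1 := by
  rw [← T_add, add_neg_cancel, T_zero]

/-- The numerator of a mutation, as a polynomial. -/
noncomputable def num (k : ℕ) (y z : ℤ[X]) : ℤ[X] := X ^ k * (y * y.reverse) + z * z.reverse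

lemma toLaurent_num (k : ℕ) (y z : ℤ[X]) (s : ℤ)
    (h : (k : ℤ) + y.natDegree = z.natDegree + s) :
    toLaurent (num k y z) = T (z.natDegree : ℤ) * (T s * sym y + sym z) := by
  have h1 : (T (k : ℤ) : LaurentPolynomial ℤ) * T (y.natDegree : ℤ)
      = T (z.natDegree : ℤ) * T s := by
    rw [← T_add, ← T_add, h]
  simp only [num, map_add, map_mul, toLaurent_X_pow, toLaurent_reverse, sym]
  linear_combination (toLaurent y * invert (toLaurent y)) * h1

lemma exists_jump (x y z : ℤ[X]) (s : ℤ) (k : ℕ) (hx : x ≠ 0)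
    (h : (k : ℤ) + y.natDegree = z.natDegree + s)
    (hd : invert (toLaurent x) ∣ T s * sym y + sym z) : ∃ w, IsJump x y z s w := by
  obtain ⟨u, hu⟩ := hd
  obtain ⟨n, p, hp⟩ := exists_T_pow (u * T ((z.natDegree : ℤ) - x.natDegree))
  have key : p * x.reverse = num k y z * X ^ n := by
    apply toLaurent_injective
    rw [map_mul, map_mul, toLaurent_num k y z s h, hu, hp, toLaurent_reverse, toLaurent_X_pow]
    have h1 : (T ((z.natDegree : ℤ) - x.natDegree) : LaurentPolynomial ℤ) * T (x.natDegree : ℤ)
        = T (z.natDegree : ℤ) := by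
      rw [← T_add]; congr 1; ring
    linear_combination (u * T n * invert (toLaurent x)) * h1
  have hX : ¬ (X : ℤ[X]) ∣ x.reverse := by
    rw [X_dvd_iff, coeff_zero_reverse]
    exact leadingCoeff_ne_zero.mpr hx
  have hdvd : (X : ℤ[X]) ^ n ∣ p := by
    apply (Polynomial.prime_X).pow_dvd_of_dvd_mul_right n hX
    exact ⟨num k y z, by rw [key]; ring⟩
  obtain ⟨w, rfl⟩ := hdvd
  refine ⟨w, ?_⟩
  unfold IsJump
  rw [← toLaurent_num k y z s h, ← map_mul]
  congr 1
  have hXn : (X : ℤ[X]) ^ n ≠ 0 := pow_ne_zero _ X_ne_zero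
  apply mul_right_cancel₀ hXn
  rw [← key]; ring

lemma jump_spec {x y z : ℤ[X]} {s : ℤ} (h : ∃ w, IsJump x y z s w) :
    IsJump x y z s (jump x y z s) := Classical.epsilon_spec h

lemma IsJump.poly {x y z w : ℤ[X]} {s : ℤ} (hw : IsJump x y z s w) (k : ℕ)
    (h : (k : ℤ) + y.natDegree = z.natDegree + s) : w * x.reverse = num k y z := by
  apply toLaurent_injective
  rw [map_mul, toLaurent_num k y z s h]
  exact hw

/-- `w` divides `q ^ s Y + Z` among Laurent polynomials. -/
lemma IsJump.dvd {x y z w : ℤ[X]} {s : ℤ} (hw : IsJump x y z s w) :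
    toLaurent w * (invert (toLaurent x) * T ((x.natDegree : ℤ) - z.natDegree))
      = T s * sym y + sym z := by
  unfold IsJump at hw
  rw [toLaurent_reverse] at hw
  have h1 : (T ((x.natDegree : ℤ) - z.natDegree) : LaurentPolynomial ℤ)
      = T (x.natDegree : ℤ) * T (-(z.natDegree : ℤ)) := T_sub _ _
  have h2 := T_mul_T_neg (z.natDegree : ℤ)
  rw [h1]
  linear_combination (T (-(z.natDegree : ℤ))) * hw + (T s * sym y + sym z) * h2

lemma IsJump.sym_mul {x y z w : ℤ[X]} {s : ℤ} (hw : IsJump x y z s w) :
    sym w * sym x = (T s * sym y + sym z) * (T (-s) * sym y + sym z) := by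
  have h1 := hw.dvd
  have h2 := congrArg invert h1
  simp only [map_mul, map_add, invert_invert, invert_T, invert_sym] at h2
  have h3 := T_mul_T_neg ((x.natDegree : ℤ) - z.natDegree)
  rw [← h1, ← h2]
  unfold sym
  linear_combination (-(toLaurent w * invert (toLaurent w) *
    (toLaurent x * invert (toLaurent x)))) * h3

/-- The deformed squared Markov equation. -/
def Mk (A B C : LaurentPolynomial ℤ) : Prop :=
  A ^ 2 + B ^ 2 + C ^ 2 + (T 1 + T (-1)) * (A * B + B * C + A * C)
    = 3 * (1 + T 1 + T (-1)) * (A * B * C)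

lemma sym_ne_zero {x : ℤ[X]} (hx : x ≠ 0) : sym x ≠ 0 := by
  unfold sym
  have h : toLaurent x ≠ 0 := toLaurent_ne_zero.mpr hx
  exact mul_ne_zero h ((map_ne_zero_iff _ invert.injective).mpr h)

lemma T_sum {s : ℤ} (hs : s = 1 ∨ s = -1) :
    (T s + T (-s) : LaurentPolynomial ℤ) = T 1 + T (-1) := by
  rcases hs with rfl | rfl
  · rfl
  · rw [neg_neg, add_comm]

/-- The linear Vieta relation. -/
lemma IsJump.vieta {x y z w : ℤ[X]} {s : ℤ} (hw : IsJump x y z s w) (hs : s = 1 ∨ s = -1)
    (hx : x ≠ 0) (hM : Mk (sym x) (sym y) (sym z)) :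
    sym w = 3 * (1 + T s + T (-s)) * (sym y * sym z) - (T s + T (-s)) * (sym y + sym z)
      - sym x := by
  have h1 := hw.sym_mul
  have h2 := T_mul_T_neg s
  have h3 := T_sum hs
  unfold Mk at hM
  rw [add_assoc (1 : LaurentPolynomial ℤ), ← h3] at hM
  apply mul_right_cancel₀ (sym_ne_zero hx)
  linear_combination h1 + hM + (sym y) ^ 2 * h2

lemma IsJump.mk_new {x y z w : ℤ[X]} {s : ℤ} (hw : IsJump x y z s w) (hs : s = 1 ∨ s = -1)
    (hx : x ≠ 0) (hM : Mk (sym x) (sym y) (sym z)) : Mk (sym y) (sym z) (sym w) := by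
  have h0 := hw.vieta hs hx hM
  have h1 := hw.sym_mul
  have h2 := T_mul_T_neg s
  have h3 := T_sum hs
  unfold Mk
  rw [add_assoc (1 : LaurentPolynomial ℤ), ← h3]
  linear_combination (sym w) * h0 - h1 - (sym y) ^ 2 * h2

/-- Product of the constant and the leading coefficient. -/
noncomputable def tt (x : ℤ[X]) : ℤ := x.coeff 0 * x.leadingCoeff

lemma ne_zero_of_tt {x : ℤ[X]} (h : 0 < tt x) : x ≠ 0 := by
  rintro rfl
  simp [tt] at h

lemma coeff_zero_ne {x : ℤ[X]} (h : 0 < tt x) : x.coeff 0 ≠ 0 := by
  intro h0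
  simp [tt, h0] at h

lemma natDegree_rev {x : ℤ[X]} (h : 0 < tt x) : x.reverse.natDegree = x.natDegree := by
  rw [reverse_natDegree, natTrailingDegree_eq_zero.mpr (Or.inr (coeff_zero_ne h))]
  simp

lemma leadingCoeff_rev {x : ℤ[X]} (h : 0 < tt x) : x.reverse.leadingCoeff = x.coeff 0 := by
  rw [reverse_leadingCoeff, trailingCoeff,
    natTrailingDegree_eq_zero.mpr (Or.inr (coeff_zero_ne h))]

lemma natDegree_mul_rev {x : ℤ[X]} (h : 0 < tt x) :
    (x * x.reverse).natDegree = 2 * x.natDegree := by
  have hx := ne_zero_of_tt h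
  rw [natDegree_mul hx (by simpa using hx), natDegree_rev h]
  ring

lemma leadingCoeff_mul_rev {x : ℤ[X]} (h : 0 < tt x) :
    (x * x.reverse).leadingCoeff = tt x := by
  rw [leadingCoeff_mul, leadingCoeff_rev h, tt, mul_comm]

lemma coeff_zero_mul_rev (x : ℤ[X]) : (x * x.reverse).coeff 0 = tt x := by
  rw [mul_coeff_zero, coeff_zero_reverse, tt]

lemma eval_one_rev (x : ℤ[X]) : x.reverse.eval 1 = x.eval 1 := by
  let _ : Invertible (1 : ℤ) := invertibleOne
  have := eval₂_reverse_mul_pow (RingHom.id ℤ) (1 : ℤ) x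
  simpa [eval₂_id] using this

lemma num_top (k : ℕ) (y z : ℤ[X]) (hy : 0 < tt y) (hz : 0 < tt z)
    (hk : k + 2 * y.natDegree ≤ 2 * z.natDegree) :
    (num k y z).natDegree = 2 * z.natDegree ∧
      (num k y z).leadingCoeff
        = (if k + 2 * y.natDegree = 2 * z.natDegree then tt y else 0) + tt z := by
  have hy0 := ne_zero_of_tt hy
  have hyy : y * y.reverse ≠ 0 := mul_ne_zero hy0 (by simpa using hy0)
  have d1 : (X ^ k * (y * y.reverse) : ℤ[X]).natDegree = k + 2 * y.natDegree := by
    rw [natDegree_mul (pow_ne_zero _ X_ne_zero) hyy, natDegree_X_pow, natDegree_mul_rev hy]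
  have l1 : (X ^ k * (y * y.reverse) : ℤ[X]).leadingCoeff = tt y := by
    rw [leadingCoeff_mul, leadingCoeff_X_pow, one_mul, leadingCoeff_mul_rev hy]
  have d2 := natDegree_mul_rev hz
  have l2 := leadingCoeff_mul_rev hz
  have hc : (num k y z).coeff (2 * z.natDegree)
      = (if k + 2 * y.natDegree = 2 * z.natDegree then tt y else 0) + tt z := by
    unfold num
    rw [coeff_add]
    congr 1
    · split_ifs with h
      · rw [← h, ← d1, ← l1]; rfl
      · apply coeff_eq_zero_of_natDegree_lt
        omega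
    · rw [← d2, ← l2]; rfl
  have hle : (num k y z).natDegree ≤ 2 * z.natDegree := by
    unfold num
    refine (natDegree_add_le _ _).trans ?_
    rw [d1, d2]
    omega
  have hne : (num k y z).coeff (2 * z.natDegree) ≠ 0 := by
    rw [hc]
    split_ifs <;> omega
  have hd : (num k y z).natDegree = 2 * z.natDegree :=
    natDegree_eq_of_le_of_coeff_ne_zero hle hne
  refine ⟨hd, ?_⟩
  rw [leadingCoeff, hd, hc]

lemma num_bot (k : ℕ) (y z : ℤ[X]) :
    (num k y z).coeff 0 = (if k = 0 then tt y else 0) + tt z := by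
  unfold num
  rw [coeff_add, coeff_zero_mul_rev, mul_coeff_zero, coeff_zero_mul_rev, coeff_X_pow]
  by_cases h : k = 0
  · simp [h]
  · simp [h, Ne.symm h]

/-- Degree, extreme coefficients and value at `1` of a mutated entry. -/
lemma IsJump.data {x y z w : ℤ[X]} {s : ℤ} (hw : IsJump x y z s w) (hs : s = 1 ∨ s = -1)
    (hx : 0 < tt x) (hy : 0 < tt y) (hz : 0 < tt z)
    (hd : z.natDegree = x.natDegree + y.natDegree + 1) :
    w.natDegree = y.natDegree + z.natDegree + 1 ∧
      tt w * tt x = tt z * ((if x.natDegree = 0 then tt y else 0) + tt z) ∧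
      w.eval 1 * x.eval 1 = y.eval 1 ^ 2 + z.eval 1 ^ 2 := by
  obtain ⟨k, hk⟩ : ∃ k : ℕ, (k : ℤ) = x.natDegree + 1 + s := by
    rcases hs with rfl | rfl
    · exact ⟨x.natDegree + 2, by push_cast; ring⟩
    · exact ⟨x.natDegree, by ring⟩
  have hk' : (k : ℤ) + y.natDegree = z.natDegree + s := by
    rw [hk, hd]; push_cast; ring
  have hp := hw.poly k hk'
  obtain ⟨h1, h2⟩ := num_top k y z hy hz (by omega)
  have h3 := num_bot k y z
  have hx0 := ne_zero_of_tt hx
  have hw0 : w ≠ 0 := by
    rintro rfl
    rw [← hp] at h3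
    simp at h3
    split_ifs at h3 <;> omega
  rw [← hp] at h1 h2 h3
  rw [natDegree_mul hw0 (by simpa using hx0), natDegree_rev hx] at h1
  rw [leadingCoeff_mul, leadingCoeff_rev hx] at h2
  rw [mul_coeff_zero, coeff_zero_reverse] at h3
  refine ⟨by omega, ?_, ?_⟩
  · have : tt w * tt x = (w.leadingCoeff * x.coeff 0) * (w.coeff 0 * x.leadingCoeff) := by
      unfold tt; ring
    rw [this, h2, h3]
    by_cases h0 : x.natDegree = 0
    · rcases hs with rfl | rfl
      · rw [if_pos (by omega), if_neg (by omega), if_pos h0]; ring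
      · rw [if_neg (by omega), if_pos (by omega), if_pos h0]; ring
    · rw [if_neg (by omega), if_neg (by omega), if_neg h0]; ring
  · have := congrArg (Polynomial.eval 1) hp
    simp only [num, eval_mul, eval_add, eval_pow, eval_X, one_pow, eval_one_rev] at this
    linear_combination this

lemma IsJump.exists_of {x y z : ℤ[X]} {s : ℤ} (hs : s = 1 ∨ s = -1) (hx : 0 < tt x)
    (hd : z.natDegree = x.natDegree + y.natDegree + 1)
    (hdvd : invert (toLaurent x) ∣ T s * sym y + sym z) : IsJump x y z s (jump x y z s) := by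
  obtain ⟨k, hk⟩ : ∃ k : ℕ, (k : ℤ) = x.natDegree + 1 + s := by
    rcases hs with rfl | rfl
    · exact ⟨x.natDegree + 2, by push_cast; ring⟩
    · exact ⟨x.natDegree, by ring⟩
  have hk' : (k : ℤ) + y.natDegree = z.natDegree + s := by
    rw [hk, hd]; push_cast; ring
  exact jump_spec (exists_jump x y z s k (ne_zero_of_tt hx) hk' hdvd)

/-- The multiplicative invariant. -/
noncomputable def tau (x : ℤ[X]) : ℤ := if x.natDegree = 0 then 2 else 3 * tt x

/-- The inductive invariant of the tree. -/
structure Good (t : Node) : Prop where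
  sgn : t.sgn = 1 ∨ t.sgn = -1
  deg : t.c.natDegree = t.a.natDegree + t.b.natDegree + 1
  degab : t.a.natDegree < t.b.natDegree
  ta : 0 < tt t.a
  tb : 0 < tt t.b
  tc : 0 < tt t.c
  a1 : t.a.natDegree = 0 → tt t.a = 1
  taueq : tau t.c = tau t.a * tau t.b
  eqn : Mk (sym t.a) (sym t.b) (sym t.c)
  dl : invert (toLaurent t.b) ∣ T t.sgn * sym t.a + sym t.c
  dr : invert (toLaurent t.a) ∣ T (-t.sgn) * sym t.b + sym t.c
  dc : toLaurent t.c ∣ T t.sgn * sym t.a + sym t.b
  ea : 0 < t.a.eval 1
  eab : t.a.eval 1 ≤ t.b.eval 1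
  ebc : t.b.eval 1 ≤ t.c.eval 1

lemma neg_sgn {s : ℤ} (hs : s = 1 ∨ s = -1) : -s = 1 ∨ -s = -1 := by omega

lemma Good.jumpL {t : Node} (h : Good t) : IsJump t.b t.a t.c t.sgn t.left.c :=
  IsJump.exists_of h.sgn h.tb (by rw [h.deg]; ring) h.dl

lemma Good.jumpR {t : Node} (h : Good t) : IsJump t.a t.b t.c (-t.sgn) t.right.c :=
  IsJump.exists_of (neg_sgn h.sgn) h.ta h.deg h.dr

lemma invert_dvd_sym (x : ℤ[X]) : invert (toLaurent x) ∣ sym x := Dvd.intro_left _ rfl

lemma Good.dc' {t : Node} (h : Good t) :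
    invert (toLaurent t.c) ∣ T (-t.sgn) * sym t.a + sym t.b := by
  have := map_dvd invert h.dc
  simpa only [map_add, map_mul, invert_T, invert_sym] using this

lemma eval_step {x y z w : ℤ} (hx : 0 < x) (hxz : x ≤ z) (h : w * x = y ^ 2 + z ^ 2) :
    z ≤ w := by
  by_contra hc
  push Not at hc
  have hz : 0 < z := lt_of_lt_of_le hx hxz
  nlinarith [sq_nonneg y]

lemma Good.left {t : Node} (h : Good t) : Good t.left := by
  have hj := h.jumpL
  have hM : Mk (sym t.b) (sym t.a) (sym t.c) := by
    have := h.eqn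
    unfold Mk at this ⊢
    linear_combination this
  obtain ⟨d1, d2, d3⟩ := hj.data h.sgn h.tb h.ta h.tc (by rw [h.deg]; ring)
  have hv := hj.vieta h.sgn (ne_zero_of_tt h.tb) hM
  have hb0 : t.b.natDegree ≠ 0 := by have := h.degab; omega
  have hc0 : t.c.natDegree ≠ 0 := by have := h.deg; omega
  rw [if_neg hb0, zero_add] at d2
  have hT := T_mul_T_neg t.sgn
  have htau : tt t.c = tau t.a * tt t.b := by
    have := h.taueq
    unfold tau at this ⊢
    rw [if_neg hb0, if_neg hc0] at this
    linarith
  have htw : tt t.left.c = tau t.a * tt t.c := by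
    apply mul_right_cancel₀ h.tb.ne'
    rw [d2]
    linear_combination (tt t.c) * htau
  have htaupos : 0 < tau t.a := by
    unfold tau
    have := h.ta
    split_ifs <;> omega
  exact
    { sgn := h.sgn
      deg := d1
      degab := by have := h.deg; change t.a.natDegree < t.c.natDegree; omega
      ta := h.ta
      tb := h.tc
      tc := by rw [htw]; exact mul_pos htaupos h.tc
      a1 := h.a1
      taueq := by
        change tau t.left.c = tau t.a * tau t.c
        have e1 : tau t.left.c = 3 * tt t.left.c := by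
          unfold tau; rw [if_neg (by omega)]
        have e2 : tau t.c = 3 * tt t.c := by
          unfold tau; rw [if_neg hc0]
        rw [e1, e2, htw]; ring
      eqn := hj.mk_new h.sgn (ne_zero_of_tt h.tb) hM
      dl := by
        change invert (toLaurent t.c) ∣ T t.sgn * sym t.a + sym t.left.c
        have e : T t.sgn * sym t.a + sym t.left.c
            = sym t.c * (3 * (1 + T t.sgn + T (-t.sgn)) * sym t.a - (T t.sgn + T (-t.sgn)))
              - (T (-t.sgn) * sym t.a + sym t.b) := by
          rw [hv]; ring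
        rw [e]
        exact dvd_sub ((invert_dvd_sym _).mul_right _) h.dc'
      dr := by
        change invert (toLaurent t.a) ∣ T (-t.sgn) * sym t.c + sym t.left.c
        have e : T (-t.sgn) * sym t.c + sym t.left.c
            = sym t.a * (3 * (1 + T t.sgn + T (-t.sgn)) * sym t.c - (T t.sgn + T (-t.sgn)))
              - T t.sgn * (T (-t.sgn) * sym t.b + sym t.c) := by
          rw [hv]; linear_combination (sym t.b) * hT
        rw [e]
        exact dvd_sub ((invert_dvd_sym _).mul_right _) (h.dr.mul_left _)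
      dc := ⟨_, hj.dvd.symm⟩
      ea := h.ea
      eab := h.eab.trans h.ebc
      ebc := eval_step (lt_of_lt_of_le h.ea h.eab) h.ebc d3 }

lemma Good.right {t : Node} (h : Good t) : Good t.right := by
  have hj := h.jumpR
  have hs := neg_sgn h.sgn
  obtain ⟨d1, d2, d3⟩ := hj.data hs h.ta h.tb h.tc h.deg
  have hv := hj.vieta hs (ne_zero_of_tt h.ta) h.eqn
  rw [neg_neg] at hv
  have hb0 : t.b.natDegree ≠ 0 := by have := h.degab; omega
  have hc0 : t.c.natDegree ≠ 0 := by have := h.deg; omega
  have hT := T_mul_T_neg t.sgn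
  have htau : tt t.c = tau t.a * tt t.b := by
    have := h.taueq
    unfold tau at this ⊢
    rw [if_neg hb0, if_neg hc0] at this
    linarith
  have htw : tt t.right.c = 3 * tt t.b * tt t.c := by
    apply mul_right_cancel₀ h.ta.ne'
    rw [d2]
    unfold tau at htau
    by_cases h0 : t.a.natDegree = 0
    · rw [if_pos h0] at htau ⊢
      rw [h.a1 h0]
      linear_combination (tt t.c) * htau
    · rw [if_neg h0] at htau ⊢
      linear_combination (tt t.c) * htau
  exact
    { sgn := hs
      deg := d1
      degab := by have := h.deg; change t.b.natDegree < t.c.natDegree; omega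
      ta := h.tb
      tb := h.tc
      tc := by rw [htw]; have := mul_pos h.tb h.tc; linarith
      a1 := fun h0 => absurd h0 hb0
      taueq := by
        change tau t.right.c = tau t.b * tau t.c
        have e1 : tau t.right.c = 3 * tt t.right.c := by
          unfold tau; rw [if_neg (by omega)]
        have e2 : tau t.c = 3 * tt t.c := by
          unfold tau; rw [if_neg hc0]
        have e3 : tau t.b = 3 * tt t.b := by
          unfold tau; rw [if_neg hb0]
        rw [e1, e2, e3, htw]; ring
      eqn := hj.mk_new hs (ne_zero_of_tt h.ta) h.eqn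
      dl := by
        change invert (toLaurent t.c) ∣ T (-t.sgn) * sym t.b + sym t.right.c
        have e : T (-t.sgn) * sym t.b + sym t.right.c
            = sym t.c * (3 * (1 + T (-t.sgn) + T t.sgn) * sym t.b - (T (-t.sgn) + T t.sgn))
              - T t.sgn * (T (-t.sgn) * sym t.a + sym t.b) := by
          rw [hv]; linear_combination (sym t.a) * hT
        rw [e]
        exact dvd_sub ((invert_dvd_sym _).mul_right _) (h.dc'.mul_left _)
      dr := by
        change invert (toLaurent t.b) ∣ T (-(-t.sgn)) * sym t.c + sym t.right.c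
        rw [neg_neg]
        have e : T t.sgn * sym t.c + sym t.right.c
            = sym t.b * (3 * (1 + T (-t.sgn) + T t.sgn) * sym t.c - (T (-t.sgn) + T t.sgn))
              - T (-t.sgn) * (T t.sgn * sym t.a + sym t.c) := by
          rw [hv]; linear_combination (sym t.a) * hT
        rw [e]
        exact dvd_sub ((invert_dvd_sym _).mul_right _) (h.dl.mul_left _)
      dc := ⟨_, hj.dvd.symm⟩
      ea := lt_of_lt_of_le h.ea h.eab
      eab := h.ebc
      ebc := eval_step h.ea (h.eab.trans h.ebc) d3 }

lemma natDegree_rb : (1 + X : ℤ[X]).natDegree = 1 := by compute_degree!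

lemma natDegree_rc : (1 + 2 * X + 2 * X ^ 2 : ℤ[X]).natDegree = 2 := by compute_degree!

lemma tt_one : tt 1 = 1 := by simp [tt]

lemma tt_rb : tt (1 + X) = 1 := by
  unfold tt
  rw [leadingCoeff, natDegree_rb]
  simp [coeff_one, coeff_X]

lemma tt_rc : tt (1 + 2 * X + 2 * X ^ 2) = 2 := by
  unfold tt
  rw [leadingCoeff, natDegree_rc]
  simp [coeff_one, coeff_X]

lemma toLaurent_two : toLaurent (2 : ℤ[X]) = 2 := map_ofNat _ 2

lemma good_root : Good root := by
  have hT : (T 1 : LaurentPolynomial ℤ) * T (-1) = 1 := T_mul_T_neg 1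
  have la : toLaurent (1 : ℤ[X]) = 1 := map_one _
  have lb : toLaurent (1 + X : ℤ[X]) = 1 + T 1 := by rw [map_add, map_one, toLaurent_X]
  have lc : toLaurent (1 + 2 * X + 2 * X ^ 2 : ℤ[X]) = 1 + 2 * T 1 + 2 * T 1 ^ 2 := by
    simp only [map_add, map_mul, map_one, map_pow, toLaurent_X, toLaurent_two]
  have ib : invert (1 + T 1 : LaurentPolynomial ℤ) = 1 + T (-1) := by
    rw [map_add, map_one, invert_T]
  have ic : invert (1 + 2 * T 1 + 2 * T 1 ^ 2 : LaurentPolynomial ℤ)
      = 1 + 2 * T (-1) + 2 * T (-1) ^ 2 := by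
    simp only [map_add, map_mul, map_one, map_pow, invert_T, map_ofNat]
  have sa : sym 1 = 1 := by simp [sym]
  have sb : sym (1 + X) = 2 + T 1 + T (-1) := by
    unfold sym; rw [lb, ib]; linear_combination hT
  have sc : sym (1 + 2 * X + 2 * X ^ 2)
      = 9 + 6 * (T 1 + T (-1)) + 2 * (T 1 ^ 2 + T (-1) ^ 2) := by
    unfold sym; rw [lc, ic]
    linear_combination (8 + 4 * T 1 + 4 * T (-1) + 4 * T 1 * T (-1)) * hT
  exact
    { sgn := Or.inl rfl
      deg := by
        change (1 + 2 * X + 2 * X ^ 2 : ℤ[X]).natDegree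
          = (1 : ℤ[X]).natDegree + (1 + X : ℤ[X]).natDegree + 1
        rw [natDegree_rb, natDegree_rc, natDegree_one]
      degab := by
        change (1 : ℤ[X]).natDegree < (1 + X : ℤ[X]).natDegree
        rw [natDegree_rb, natDegree_one]; omega
      ta := by change 0 < tt 1; rw [tt_one]; omega
      tb := by change 0 < tt (1 + X); rw [tt_rb]; omega
      tc := by change 0 < tt (1 + 2 * X + 2 * X ^ 2); rw [tt_rc]; omega
      a1 := fun _ => tt_one
      taueq := by
        change tau (1 + 2 * X + 2 * X ^ 2) = tau 1 * tau (1 + X)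
        unfold tau
        rw [natDegree_rb, natDegree_rc, natDegree_one, tt_rb, tt_rc]
        norm_num
      eqn := by
        change Mk (sym 1) (sym (1 + X)) (sym (1 + 2 * X + 2 * X ^ 2))
        rw [sa, sb, sc]
        unfold Mk
        linear_combination (-32 - 24 * T (-1) - 8 * T (-1) ^ 2 - 24 * T 1 - 8 * T 1 ^ 2) * hT
      dl := by
        change invert (toLaurent (1 + X : ℤ[X])) ∣ T 1 * sym 1 + sym (1 + 2 * X + 2 * X ^ 2)
        rw [lb, ib, sa, sc]
        refine ⟨2 * T 1 ^ 2 + 5 * T 1 + 4 + 2 * T (-1), ?_⟩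
        linear_combination (-2 * T 1 - 5) * hT
      dr := by
        change invert (toLaurent (1 : ℤ[X])) ∣ _
        rw [la, map_one]
        exact one_dvd _
      dc := by
        change toLaurent (1 + 2 * X + 2 * X ^ 2 : ℤ[X]) ∣ T 1 * sym 1 + sym (1 + X)
        rw [lc, sa, sb]
        refine ⟨T (-1), ?_⟩
        linear_combination (-2 - 2 * T 1) * hT
      ea := by change 0 < (1 : ℤ[X]).eval 1; simp
      eab := by change (1 : ℤ[X]).eval 1 ≤ (1 + X : ℤ[X]).eval 1; simp
      ebc := by
        change (1 + X : ℤ[X]).eval 1 ≤ (1 + 2 * X + 2 * X ^ 2 : ℤ[X]).eval 1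
        simp }

/-- One step down the tree. -/
noncomputable def step (t : Node) (d : Bool) : Node := if d then t.right else t.left

lemma Good.next {t : Node} (h : Good t) (d : Bool) : Good (step t d) := by
  cases d
  · exact h.left
  · exact h.right

lemma Good.foldl {t : Node} (h : Good t) (w : List Bool) : Good (w.foldl step t) := by
  induction w generalizing t with
  | nil => exact h
  | cons d w ih => exact ih (h.next d)

lemma good_node (w : List Bool) : Good (node w) := good_root.foldl w

/-- Coordinates of the Farey label of the maximum at the end of a path. -/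
def lab : List Bool → ℕ × ℕ
  | [] => (1, 1)
  | false :: w => ((lab w).1 + (lab w).2, (lab w).2)
  | true :: w => ((lab w).2, (lab w).1 + (lab w).2)

lemma lab_pos (w : List Bool) : 0 < (lab w).1 ∧ 0 < (lab w).2 := by
  induction w with
  | nil => simp [lab]
  | cons d w ih => cases d <;> simp only [lab] <;> omega

lemma lab_injective : Function.Injective lab := by
  intro w
  induction w with
  | nil =>
    intro w' h
    rcases w' with _ | ⟨d, w'⟩
    · rfl
    · have := lab_pos w'
      cases d <;> simp only [lab, Prod.mk.injEq] at h <;> omega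
  | cons d w ih =>
    intro w' h
    have h1 := lab_pos w
    rcases w' with _ | ⟨d', w'⟩
    · cases d <;> simp only [lab, Prod.mk.injEq] at h <;> omega
    · have h2 := lab_pos w'
      cases d <;> cases d' <;> simp only [lab, Prod.mk.injEq] at h
      · rw [ih (Prod.ext (by omega) (by omega) : lab w = lab w')]
      · omega
      · omega
      · rw [ih (Prod.ext (by omega) (by omega) : lab w = lab w')]

lemma Good.tau_foldl {t : Node} (h : Good t) (w : List Bool) :
    tau (w.foldl step t).c
      = tau t.a ^ (lab w).1 * tau t.b ^ (lab w).2 := by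
  induction w generalizing t with
  | nil => simpa [lab] using h.taueq
  | cons d w ih =>
    rw [List.foldl_cons, ih (h.next d)]
    cases d
    · change tau t.a ^ (lab w).1 * tau t.c ^ (lab w).2 = _
      rw [h.taueq]; simp only [lab]; ring
    · change tau t.b ^ (lab w).1 * tau t.c ^ (lab w).2 = _
      rw [h.taueq]; simp only [lab]; ring

lemma tau_node (w : List Bool) : tau (node w).c = 2 ^ (lab w).1 * 3 ^ (lab w).2 := by
  have := good_root.tau_foldl w
  have ha : tau root.a = 2 := by
    change tau 1 = 2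
    unfold tau
    rw [if_pos natDegree_one]
  have hb : tau root.b = 3 := by
    change tau (1 + X) = 3
    unfold tau
    rw [natDegree_rb, tt_rb]; norm_num
  rw [ha, hb] at this
  exact this

lemma two_three_inj {a b c d : ℕ} (h : (2 : ℤ) ^ a * 3 ^ b = 2 ^ c * 3 ^ d) : a = c ∧ b = d := by
  have h' : (2 : ℕ) ^ a * 3 ^ b = 2 ^ c * 3 ^ d := by exact_mod_cast h
  have h2 := congrArg (fun n => Nat.factorization n 2) h'
  have h3 := congrArg (fun n => Nat.factorization n 3) h'
  simp [Nat.factorization_mul, Nat.factorization_pow, Nat.prime_two.factorization,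
    Nat.prime_three.factorization] at h2 h3
  exact ⟨h2, h3⟩

lemma node_c_injective : Function.Injective fun w : List Bool => (node w).c := by
  intro w w' h
  have h1 := tau_node w
  have h2 := tau_node w'
  have h' : (node w).c = (node w').c := h
  rw [h', h2] at h1
  obtain ⟨e1, e2⟩ := two_three_inj h1
  exact lab_injective (Prod.ext e1.symm e2.symm)

lemma two_le_natDegree_node (w : List Bool) : 2 ≤ (node w).c.natDegree := by
  have h := good_node w
  have h1 := h.deg
  have h2 := h.degab
  omega

theorem max_injective : Function.Injective fun v : Vertex => (triple v).2.2 := by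
  intro v v' h
  have hd := congrArg natDegree h
  rcases v with _ | _ | w <;> rcases v' with _ | _ | w' <;>
    simp only [triple, natDegree_one, natDegree_rb] at h hd
  · rfl
  · omega
  · have := two_le_natDegree_node w'; omega
  · omega
  · rfl
  · have := two_le_natDegree_node w'; omega
  · have := two_le_natDegree_node w; omega
  · have := two_le_natDegree_node w; omega
  · rw [node_c_injective h]

end Pool.Agent.P.MP_6870a6_co
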